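import Pool.Agent.Helper28.TK.StK

/-!
# Project TK, module KRN0: the root number at level one
-/

set_option autoImplicit false

namespace Pool.Agent.Helper8.TK

open Pool.Agent.Helper28.TK Pool.Agent.Helper14.WK
open Pool.Agent.Helper14.CV (G0)
open Complex Filter Topology MeasureTheory Set

/-- the function on the positive half line -/
private noncomputable def ph {N : ℕ} {k : ℤ} (f : CuspForm (G0 N) k) (t : ℝ) : ℂ := fzK f (I * t)

private lemma lam_eq {N : ℕ} [NeZero N] {k : ℤ} (hk : 0 < k) (f : CuspForm (G0 N) k) (s : ℂ)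
    (hs : 0 < (s + ((k : ℂ) - 1) / 2).re) :
    LamK hk f s = (Real.sqrt N : ℂ) ^ s * ((2 * Real.pi : ℝ) : ℂ) ^ (((k : ℂ) - 1) / 2) *
      mellin (ph f) (s + ((k : ℂ) - 1) / 2) := by
  have hN : 0 < (N : ℝ) := by
    have := NeZero.pos N
    exact_mod_cast this
  have hG : Complex.Gamma (s + ((k : ℂ) - 1) / 2) ≠ 0 := Complex.Gamma_ne_zero_of_re_pos hs
  have h2 : ((2 * Real.pi : ℝ) : ℂ) ≠ 0 := by
    exact_mod_cast (by positivity : (2 * Real.pi : ℝ) ≠ 0)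
  have h1 : ((Real.sqrt N / (2 * Real.pi) : ℝ) : ℂ) ^ s
      = (Real.sqrt N : ℂ) ^ s / ((2 * Real.pi : ℝ) : ℂ) ^ s := by
    rw [Complex.ofReal_div, Complex.div_cpow_ofReal_nonneg (Real.sqrt_nonneg _) (by positivity)]
  have hL : LanK hk f s = mellin (ph f) (s + ((k : ℂ) - 1) / 2) * (2 / Complex.Gammaℂ (s + ((k : ℂ) - 1) / 2)) := by
    unfold LanK ModularForm.L
    rw [CuspForm.Λ_eq_mellin]
    rfl
  unfold LamK
  rw [hL, h1, Complex.Gammaℂ_def]
  have h3 : (2 * (Real.pi : ℂ)) = ((2 * Real.pi : ℝ) : ℂ) := by push_cast; ring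
  rw [h3]
  have h4 : ((2 * Real.pi : ℝ) : ℂ) ^ (-(s + ((k : ℂ) - 1) / 2)) =
      (((2 * Real.pi : ℝ) : ℂ) ^ s * ((2 * Real.pi : ℝ) : ℂ) ^ (((k : ℂ) - 1) / 2))⁻¹ := by
    rw [Complex.cpow_neg, Complex.cpow_add _ _ h2]
  rw [h4]
  have h5 : ((2 * Real.pi : ℝ) : ℂ) ^ s ≠ 0 := by
    rw [Complex.cpow_ne_zero_iff]
    exact Or.inl h2
  have h6 : ((2 * Real.pi : ℝ) : ℂ) ^ (((k : ℂ) - 1) / 2) ≠ 0 := by
    rw [Complex.cpow_ne_zero_iff]
    exact Or.inl h2
  generalize s + ((k : ℂ) - 1) / 2 = u at hG ⊢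
  field_simp

private lemma fz_smul {N : ℕ} {k : ℤ} (c : ℂ) (f : CuspForm (G0 N) k) (z : ℂ) :
    fzK (c • f) z = c * fzK f z := rfl

private lemma lam_smul {N : ℕ} [NeZero N] {k : ℤ} (hk : 0 < k) (c : ℂ) (f : CuspForm (G0 N) k) (s : ℂ)
    (hs : 0 < (s + ((k : ℂ) - 1) / 2).re) : LamK hk (c • f) s = c * LamK hk f s := by
  have h : ph (c • f) = fun t => c • ph f t := by
    funext t
    exact fz_smul c f _
  rw [lam_eq hk _ s hs, lam_eq hk _ s hs, h, mellin_const_smul, smul_eq_mul]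
  ring

theorem hKRN0 : StKRN0 := by
  intro hFE hMod N hNZ A hk f hN1
  subst hN1
  have hS : ∀ z : ℂ, 0 < z.im → fzK f (-1 / z) = z ^ (2 * A + 2) * fzK f z := by
    intro z hz
    have h := hMod 1 hNZ A f 0 (-1) 1 0 (by norm_num) (by norm_num) z hz
    simpa using h
  have hw : ((((-1) ^ (A + 1) : ℤ)) : ℂ) = (-1) ^ (A + 1) := by push_cast; ring
  have hww : ((-1 : ℂ)) ^ (A + 1) * (-1) ^ (A + 1) = 1 := by
    rw [← mul_pow]
    norm_num
  refine ⟨?_, ?_⟩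
  · intro s hs1 hs2
    have hFr : FrK A f (((-1 : ℂ) ^ (A + 1)) • f) := by
      intro z hz
      have hz0 : z ≠ 0 := by
        rintro rfl
        simp at hz
      rw [fz_smul, Nat.cast_one, one_mul, hS z hz, one_pow, one_mul,
        inv_mul_cancel_left₀ (pow_ne_zero _ hz0)]
    have h := hFE 1 hNZ A hk f _ hFr s hs1 hs2
    rw [h, lam_smul hk _ f (1 - s), hw]
    push_cast at hs2 ⊢
    simp
    linarith
  · intro z hz
    rw [Nat.cast_one, one_mul, hS z hz, one_pow, hw]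
    linear_combination (-(z ^ (2 * A + 2) * fzK f z)) * hww

end Pool.Agent.Helper8.TK
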