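import Pool.Agent.Helper4.TK.StD

/-!
# Project TK, module Sur: solving the inhomogeneous relation
-/

set_option autoImplicit false

namespace Pool.Agent.Helper8.TK

open Pool.Agent.Helper4.TK
open Pool.Agent.Helper14.W5 (tr5 Fn5 op5 oA Wd5 dX dY Lw bb5 S5Trm S5Low0 S5Nfa S5Lw1 S5Bb)

private theorem alg_Sur {V : Type} [AddCommGroup V] [Module (ZMod 5) V]
    (β α M T X Y : Module.End (ZMod 5) V) (P Q : V) (h : ∀ v, α (β v) = M v) :
    (X P + Y Q) - (-(P + Q) - T (-(P + Q)) - ((2 : ZMod 5) • Q - β ((2 : ZMod 5) • Q)) -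
      ((2 : ZMod 5) • β Q - α ((2 : ZMod 5) • β Q))) =
    -(T (P + Q) - (P + Q) - X (P + Q)) -
      (2 : ZMod 5) • (M Q - Q - (2 : ZMod 5) • X Q - (3 : ZMod 5) • Y Q) := by
  simp only [h, map_add, map_neg, map_smul]
  match_scalars <;> decide

private theorem decomp_Sur (hLow0 : S5Low0) (hBb : S5Bb) (r s : ℕ) (e : ℤ) (E : Fn5 (5 ^ r) (5 ^ s))
    (he : e < 5 ^ r + 5 ^ s - 2) (hE : E ∈ Wd5 e) :
    ∃ U V : Fn5 (5 ^ r) (5 ^ s), U ∈ Wd5 (e + 1) ∧ V ∈ Wd5 (e + 1) ∧ dX U + dY V = E := by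
  obtain ⟨_, _, _, _, hmono, _⟩ := hLow0 r s
  obtain ⟨h1, h2, h3, _, _, h6⟩ := hBb r s
  set c : ℕ → ℕ → ZMod 5 := fun i j =>
    ((dX ^ i * dY ^ j : Module.End (ZMod 5) (Fn5 (5 ^ r) (5 ^ s))) E) 0 0 with hc
  have hc0 : ∀ i j : ℕ, e < (i : ℤ) + j → c i j = 0 := by
    intro i j hij
    have : ((dX ^ i * dY ^ j : Module.End (ZMod 5) (Fn5 (5 ^ r) (5 ^ s))) E) = 0 := hE i j hij
    rw [hc]
    simp only [this]
    rfl
  have hj : ∀ i j : ℕ, i < 5 ^ r → (i : ℤ) + j ≤ e → ¬ (i + 1 < 5 ^ r) → j + 1 < 5 ^ s := by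
    intro i j hi hij hi1
    have h7 : i + 1 = 5 ^ r := by omega
    have h8 : (i : ℤ) + 1 = 5 ^ r := by exact_mod_cast h7
    have h9 : (j : ℤ) + 1 < 5 ^ s := by linarith
    exact_mod_cast h9
  refine ⟨∑ i ∈ Finset.range (5 ^ r), ∑ j ∈ Finset.range (5 ^ s),
      (if i + 1 < 5 ^ r then c i j • bb5 (i + 1) j else 0),
    ∑ i ∈ Finset.range (5 ^ r), ∑ j ∈ Finset.range (5 ^ s),
      (if i + 1 < 5 ^ r then 0 else c i j • bb5 i (j + 1)), ?_, ?_, ?_⟩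
  · refine Submodule.sum_mem _ fun i hi => Submodule.sum_mem _ fun j hj => ?_
    rw [Finset.mem_range] at hi hj
    split_ifs with h
    · by_cases hij : (i : ℤ) + j ≤ e
      · refine Submodule.smul_mem _ _ (hmono _ _ ?_ (h1 (i + 1) j h hj))
        push_cast
        linarith
      · rw [hc0 i j (not_le.1 hij), zero_smul]
        exact Submodule.zero_mem _
    · exact Submodule.zero_mem _
  · refine Submodule.sum_mem _ fun i hi => Submodule.sum_mem _ fun j _ => ?_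
    rw [Finset.mem_range] at hi
    split_ifs with h
    · exact Submodule.zero_mem _
    · by_cases hij : (i : ℤ) + j ≤ e
      · refine Submodule.smul_mem _ _ (hmono _ _ ?_ (h1 i (j + 1) hi (hj i j hi hij h)))
        push_cast
        linarith
      · rw [hc0 i j (not_le.1 hij), zero_smul]
        exact Submodule.zero_mem _
  · refine Eq.trans ?_ (h6 E).symm
    rw [map_sum, map_sum, ← Finset.sum_add_distrib]
    refine Finset.sum_congr rfl fun i hi => ?_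
    rw [map_sum, map_sum, ← Finset.sum_add_distrib]
    refine Finset.sum_congr rfl fun j hj' => ?_
    rw [Finset.mem_range] at hi hj'
    have hcc : ((dX ^ i * dY ^ j : Module.End (ZMod 5) (Fn5 (5 ^ r) (5 ^ s))) E) 0 0 = c i j := rfl
    rw [hcc]
    by_cases h : i + 1 < 5 ^ r
    · rw [if_pos h, if_pos h, map_smul, map_zero, add_zero, h2 i j h hj']
    · rw [if_neg h, if_neg h, map_smul, map_zero, zero_add]
      by_cases hij : (i : ℤ) + j ≤ e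
      · rw [h3 i j hi (hj i j hi hij h)]
      · rw [hc0 i j (not_le.1 hij), zero_smul, zero_smul]

private theorem rho_M (hTrm : S5Trm) (r s : ℕ) (F : Fn5 (5 ^ r) (5 ^ s)) :
    op5 12 (-5) 3 (-6) (op5 9 (-2) 3 (-3) F) = op5 11 (-3) 3 (-4) F := by
  have h7 := (hTrm (ZMod 5) r s F).1 12 (-5) 3 (-6) 9 (-2) 3 (-3) (by norm_num) (by norm_num)
    (by norm_num) (by norm_num)
  have h8 := (hTrm (ZMod 5) r s F).2.2 3 11 (-3) 3 (-4) (by norm_num) (by norm_num) (by norm_num)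
  norm_num at h7 h8
  exact h7.trans h8

/-- One step of the induction. -/
private theorem step_Sur (hTrm : S5Trm) (hLow0 : S5Low0) (hNfa : S5Nfa) (hLw1 : S5Lw1)
    (hw : TLw1) (hBb : S5Bb) (r s : ℕ) (e : ℤ) (E : Fn5 (5 ^ r) (5 ^ s))
    (he : e < 5 ^ r + 5 ^ s - 2) (hE : E ∈ Wd5 e) :
    ∃ f a b : Fn5 (5 ^ r) (5 ^ s), f ∈ Wd5 (e + 1) ∧ a ∈ Wd5 (e + 1) ∧ b ∈ Wd5 (e + 1) ∧
      E - (f - op5 1 1 0 1 f - (a - op5 9 (-2) 3 (-3) a) - (b - op5 12 (-5) 3 (-6) b)) ∈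
        (Wd5 (e - 1) : Submodule (ZMod 5) (Fn5 (5 ^ r) (5 ^ s))) := by
  obtain ⟨_, _, _, _, hmono, _⟩ := hLow0 r s
  obtain ⟨_, _, _, _, hA, _⟩ := hNfa r s
  obtain ⟨hLw, -, -, -⟩ := hLw1 r s
  obtain ⟨hM, -⟩ := hw r s
  obtain ⟨P, Q, hP, hQ, hPQ⟩ := decomp_Sur hLow0 hBb r s e E he hE
  have hβ : op5 9 (-2) 3 (-3) Q ∈ (Wd5 (e + 1) : Submodule (ZMod 5) (Fn5 (5 ^ r) (5 ^ s))) := by
    have := hLw 9 (-2) 3 (-3) (by norm_num) (by norm_num) (e + 1) Q hQ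
    rwa [sub_zero] at this
  refine ⟨-(P + Q), (2 : ZMod 5) • Q, (2 : ZMod 5) • op5 9 (-2) 3 (-3) Q,
    Submodule.neg_mem _ (Submodule.add_mem _ hP hQ), Submodule.smul_mem _ _ hQ,
    Submodule.smul_mem _ _ hβ, ?_⟩
  rw [← hPQ, alg_Sur (op5 9 (-2) 3 (-3)) (op5 12 (-5) 3 (-6)) (op5 11 (-3) 3 (-4)) (op5 1 1 0 1)
    dX dY P Q (rho_M hTrm r s)]
  have c1 : op5 1 1 0 1 (P + Q) - (P + Q) - dX (P + Q) ∈
      (Wd5 (e - 1) : Submodule (ZMod 5) (Fn5 (5 ^ r) (5 ^ s))) :=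
    hmono _ _ (by linarith) (hA _ _ (Submodule.add_mem _ hP hQ))
  have c2 : op5 11 (-3) 3 (-4) Q - Q - (2 : ZMod 5) • dX Q - (3 : ZMod 5) • dY Q ∈
      (Wd5 (e - 1) : Submodule (ZMod 5) (Fn5 (5 ^ r) (5 ^ s))) :=
    hmono _ _ (by linarith) (hM _ _ hQ)
  exact Submodule.sub_mem _ (Submodule.neg_mem _ c1) (Submodule.smul_mem _ _ c2)

private theorem main_Sur (hTrm : S5Trm) (hLow0 : S5Low0) (hNfa : S5Nfa) (hLw1 : S5Lw1)
    (hw : TLw1) (hBb : S5Bb) (r s : ℕ) :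
    ∀ (n : ℕ) (e : ℤ) (E : Fn5 (5 ^ r) (5 ^ s)), e < n → e < 5 ^ r + 5 ^ s - 2 → E ∈ Wd5 e →
    ∃ f a b : Fn5 (5 ^ r) (5 ^ s), f ∈ Wd5 (e + 1) ∧ a ∈ Wd5 (e + 1) ∧ b ∈ Wd5 (e + 1) ∧
      f - op5 1 1 0 1 f - (a - op5 9 (-2) 3 (-3) a) - (b - op5 12 (-5) 3 (-6) b) = E := by
  have hL := hLow0 r s
  obtain ⟨_, _, _, _, hmono, _, _, _, _, _, _, _, _, hneg⟩ := hL
  intro n
  induction n with
  | zero =>
    intro e E he _ hE
    have h1 : E = 0 := hneg E (hmono e (-1) (by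
      have : e < 0 := by exact_mod_cast he
      omega) hE)
    refine ⟨0, 0, 0, Submodule.zero_mem _, Submodule.zero_mem _, Submodule.zero_mem _, ?_⟩
    rw [h1, map_zero, map_zero, map_zero]
    simp
  | succ n ih =>
    intro e E he he2 hE
    obtain ⟨f, a, b, hf, ha, hb, hR⟩ := step_Sur hTrm hLow0 hNfa hLw1 hw hBb r s e E he2 hE
    obtain ⟨f', a', b', hf', ha', hb', hR'⟩ := ih (e - 1) _ (by push_cast at he; linarith)
      (by linarith) hR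
    have h6 : e - 1 + 1 = e := by ring
    rw [h6] at hf' ha' hb'
    refine ⟨f + f', a + a', b + b', Submodule.add_mem _ hf (hmono _ _ (by linarith) hf'),
      Submodule.add_mem _ ha (hmono _ _ (by linarith) ha'),
      Submodule.add_mem _ hb (hmono _ _ (by linarith) hb'), ?_⟩
    rw [map_add (op5 1 1 0 1) f f', map_add (op5 9 (-2) 3 (-3)) a a',
      map_add (op5 12 (-5) 3 (-6)) b b']
    have h7 : f + f' - (op5 1 1 0 1 f + op5 1 1 0 1 f') -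
        (a + a' - (op5 9 (-2) 3 (-3) a + op5 9 (-2) 3 (-3) a')) -
        (b + b' - (op5 12 (-5) 3 (-6) b + op5 12 (-5) 3 (-6) b')) =
        (f - op5 1 1 0 1 f - (a - op5 9 (-2) 3 (-3) a) - (b - op5 12 (-5) 3 (-6) b)) +
        (f' - op5 1 1 0 1 f' - (a' - op5 9 (-2) 3 (-3) a') - (b' - op5 12 (-5) 3 (-6) b')) := by
      abel
    rw [h7, hR']
    abel

theorem hSur (ht : S5Trm) (hl : S5Low0) (hn : S5Nfa) (h1 : S5Lw1) (hw : TLw1) (hb : S5Bb) :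
    TSur := by
  intro r s e E he hE
  exact main_Sur ht hl hn h1 hw hb r s (e + 1).toNat e E (by
    have := Int.self_le_toNat (e + 1)
    linarith) he hE

end Pool.Agent.Helper8.TK
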